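import Pool.Agent.CFK.Defs

/-!
# CFT: the closed arithmetic terms of the digits (MP_3fdbfc_nt)

Functions from terms to terms, no proofs. A condition is a term with the values 0 (false) and 1 (true).
The bound variable of `sumT n f`, `allT n p`, `findT n p` is `var 0` of the second argument; the other
variables are shifted by one.
-/

namespace Pool.Agent.CFT

open Pool.Agent.CFK

/-- substitution of terms for the variables -/
def sb (u : ℕ → T) : T → T
  | .var i => u i
  | .const c => .const c
  | .add a b => .add (sb u a) (sb u b)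
  | .sub a b => .sub (sb u a) (sb u b)
  | .mul a b => .mul (sb u a) (sb u b)
  | .divS a b => .divS (sb u a) (sb u b)
  | .pow2 a => .pow2 (sb u a)

/-- shift of the variables by one -/
def sh (t : T) : T := sb (fun i => .var (i + 1)) t

/-- `a / b` -/
def divT (a b : T) : T := .mul (.sub (.const 1) (.sub (.const 1) b)) (.divS a (.sub b (.const 1)))

/-- `a % b` -/
def modT (a b : T) : T := .sub a (.mul b (divT a b))

/-- `max a b` -/
def maxT (a b : T) : T := .add a (.sub b a)

/-- `min a b` -/
def minT (a b : T) : T := .sub a (.sub a b)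

/-- `a ≤ b` -/
def leT (a b : T) : T := .sub (.const 1) (.sub a b)

/-- `a < b` -/
def ltT (a b : T) : T := leT (.add a (.const 1)) b

/-- `a = b` -/
def eqT (a b : T) : T := .mul (leT a b) (leT b a)

/-- negation -/
def notT (p : T) : T := .sub (.const 1) p

/-- `if p then a else b` -/
def iteT (p a b : T) : T := .add (.mul p a) (.mul (notT p) b)

/-- `a ^ k`, fixed `k` -/
def npowT (a : T) : ℕ → T
  | 0 => .const 1
  | k + 1 => .mul (npowT a k) a

/-- sum of `d` terms -/
def sumF : (d : ℕ) → (Fin d → T) → T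
  | 0, _ => .const 0
  | d + 1, f => .add (f 0) (sumF d fun i => f i.succ)

/-- product of `d` terms -/
def prodF : (d : ℕ) → (Fin d → T) → T
  | 0, _ => .const 1
  | d + 1, f => .mul (f 0) (prodF d fun i => f i.succ)

/-- maximum of `d` terms -/
def maxF : (d : ℕ) → (Fin d → T) → T
  | 0, _ => .const 0
  | d + 1, f => maxT (f 0) (maxF d fun i => f i.succ)

/-- product of the terms `f k`, `k < m` -/
def prodR : ℕ → (ℕ → T) → T
  | 0, _ => .const 1
  | m + 1, f => .mul (prodR m f) (f m)

/-- `a ^ b = 2 ^ (m b) % (2 ^ m - a)`, `m = a b + a + 1` -/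
def powT (a b : T) : T :=
  modT (.pow2 (.mul (.add (.add (.mul a b) a) (.const 1)) b))
    (.sub (.pow2 (.add (.add (.mul a b) a) (.const 1))) a)

/-- the binomial coefficient `n` over `k`, a digit of `(2 ^ (n + 1) + 1) ^ n` -/
def chooseT (n k : T) : T :=
  modT (divT (powT (.add (.pow2 (.add n (.const 1))) (.const 1)) n)
    (.pow2 (.mul (.add n (.const 1)) k))) (.pow2 (.add n (.const 1)))

/-- the sum of `q ^ x`, `x < b` -/
def geoT (q b : T) : T := divT (.sub (powT q b) (.const 1)) (.sub q (.const 1))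

/-- greatest common divisor: number of the solutions of `a x + b y = a b`, minus 1 -/
def gcdT (a b : T) : T :=
  iteT (eqT a (.const 0)) b (iteT (eqT b (.const 0)) a
    (.sub (modT (divT (.mul
      (geoT (.pow2 (.mul (.add (.add (.add (.mul a b) a) b) (.const 2)) a)) (.add b (.const 1)))
      (geoT (.pow2 (.mul (.add (.add (.add (.mul a b) a) b) (.const 2)) b)) (.add a (.const 1))))
      (.pow2 (.mul (.add (.add (.add (.mul a b) a) b) (.const 2)) (.mul a b))))
      (.pow2 (.add (.add (.add (.mul a b) a) b) (.const 2)))) (.const 1)))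

/-- the exponent of 2 in the central binomial coefficient: `gcd (C, 2 ^ C)`, `C = (2n over n)` -/
def hwpT (n : T) : T := gcdT (chooseT (.mul (.const 2) n) n) (.pow2 (chooseT (.mul (.const 2) n) n))

/-- Hamming weight of `n` -/
def hwT (n : T) : T :=
  divT (modT (powT (hwpT n) (.add (hwpT n) (.const 2)))
    (npowT (.sub (.pow2 (.add (hwpT n) (.const 2))) (.const 1)) 2))
    (.sub (.pow2 (.add (hwpT n) (.const 2))) (.const 1))

/-- the sum of `φ(x) q ^ x`, `x < b`, for `φ(x) = 1, x, x^2, 2^x, 4^x` -/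
def geoF : F1 → T → T → T
  | .one, q, b => geoT q b
  | .id, q, b => divT (.sub (.add (.mul (.mul b (.sub q (.const 1))) (powT q b)) q)
      (.mul q (powT q b))) (npowT (.sub q (.const 1)) 2)
  | .sq, q, b => divT (.sub (.mul (.add (.mul (npowT b 2) (npowT (.sub q (.const 1)) 2))
      (.mul q (.add q (.const 1)))) (powT q b))
      (.add (.mul (.mul (.mul (.mul (.const 2) b) q) (.sub q (.const 1))) (powT q b))
        (.mul q (.add q (.const 1))))) (npowT (.sub q (.const 1)) 3)
  | .p2, q, b => geoT (.mul (.const 2) q) b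
  | .p4, q, b => geoT (.mul (.const 4) q) b

/-- `φ(b)` -/
def valF : F1 → T → T
  | .one, _ => .const 1
  | .id, b => b
  | .sq, b => npowT b 2
  | .p2, b => .pow2 b
  | .p4, b => powT (.const 4) b

/-- monomials in the unknowns: coefficient and the functions of the unknowns -/
def m0 (c : T) : T × (ℕ → F1) := (c, fun _ => .one)

/-- `c φ(v i)` -/
def m1 (c : T) (φ : F1) (i : ℕ) : T × (ℕ → F1) := (c, fun k => if k = i then φ else .one)

/-- `c φ(v i) ψ(v j)` -/
def m2 (c : T) (φ ψ : F1) (i j : ℕ) : T × (ℕ → F1) :=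
  (c, fun k => if k = i then φ else if k = j then ψ else .one)

/-- `c (v i) (v j) (v k)` -/
def m3 (c : T) (i j k : ℕ) : T × (ℕ → F1) :=
  (c, fun l => if l = i then .id else if l = j then .id else if l = k then .id else .one)

/-- positive monomials of the sum of the squared errors of the system of `t` -/
def pp : T → ℕ → List (T × (ℕ → F1))
  | .var 0, s => [m1 (.const 1) .sq s, m1 (.const 1) .sq 0]
  | .var (i + 1), s => [m1 (.const 1) .sq s, m0 (.mul (.var i) (.var i))]
  | .const c, s => [m1 (.const 1) .sq s, m0 (.const (c ^ 2))]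
  | .add a b, s => [m1 (.const 1) .sq s, m1 (.const 1) .sq (s + 1),
      m1 (.const 1) .sq (s + 1 + a.size), m2 (.const 2) .id .id (s + 1) (s + 1 + a.size)] ++
      pp a (s + 1) ++ pp b (s + 1 + a.size)
  | .sub a b, s => [m1 (.const 1) .sq (s + 2), m1 (.const 1) .sq (s + 1),
      m1 (.const 1) .sq (s + 2 + a.size), m1 (.const 1) .sq s,
      m2 (.const 2) .id .id (s + 2) (s + 1), m2 (.const 2) .id .id (s + 2 + a.size) s,
      m2 (.const 1) .id .id s (s + 1)] ++ pp a (s + 2) ++ pp b (s + 2 + a.size)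
  | .mul a b, s => [m1 (.const 1) .sq s, m2 (.const 1) .sq .sq (s + 1) (s + 1 + a.size)] ++
      pp a (s + 1) ++ pp b (s + 1 + a.size)
  | .divS a b, s => [m2 (.const 1) .sq .sq (s + 3 + a.size) s, m1 (.const 1) .sq s,
      m1 (.const 1) .sq (s + 1), m1 (.const 1) .sq (s + 3), m2 (.const 2) .id .sq (s + 3 + a.size) s,
      m3 (.const 2) (s + 3 + a.size) s (s + 1), m2 (.const 2) .id .id s (s + 1),
      m1 (.const 1) .sq (s + 1), m1 (.const 1) .sq (s + 2), m1 (.const 1) .sq (s + 3 + a.size),
      m2 (.const 2) .id .id (s + 1) (s + 2)] ++ pp a (s + 3) ++ pp b (s + 3 + a.size)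
  | .pow2 a, s => [m1 (.const 1) .sq s, m1 (.const 1) .p4 (s + 1)] ++ pp a (s + 1)

/-- negative monomials -/
def pm : T → ℕ → List (T × (ℕ → F1))
  | .var 0, s => [m2 (.const 2) .id .id s 0]
  | .var (i + 1), s => [m1 (.mul (.const 2) (.var i)) .id s]
  | .const c, s => [m1 (.const (2 * c)) .id s]
  | .add a b, s => [m2 (.const 2) .id .id s (s + 1), m2 (.const 2) .id .id s (s + 1 + a.size)] ++
      pm a (s + 1) ++ pm b (s + 1 + a.size)
  | .sub a b, s => [m2 (.const 2) .id .id (s + 2) (s + 2 + a.size), m2 (.const 2) .id .id (s + 2) s,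
      m2 (.const 2) .id .id (s + 1) (s + 2 + a.size), m2 (.const 2) .id .id (s + 1) s] ++
      pm a (s + 2) ++ pm b (s + 2 + a.size)
  | .mul a b, s => [m3 (.const 2) s (s + 1) (s + 1 + a.size)] ++ pm a (s + 1) ++ pm b (s + 1 + a.size)
  | .divS a b, s => [m3 (.const 2) (s + 3 + a.size) s (s + 3), m2 (.const 2) .id .id s (s + 3),
      m2 (.const 2) .id .id (s + 1) (s + 3), m2 (.const 2) .id .id (s + 1) (s + 3 + a.size),
      m2 (.const 2) .id .id (s + 2) (s + 3 + a.size)] ++ pm a (s + 3) ++ pm b (s + 3 + a.size)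
  | .pow2 a, s => [m2 (.const 2) .id .p2 s (s + 1)] ++ pm a (s + 1)

/-- shift of the parameters -/
def shL (l : List (T × (ℕ → F1))) : List (T × (ℕ → F1)) := l.map fun p => (sh p.1, p.2)

/-- the whole system, positive part -/
def ppW (t : T) : List (T × (ℕ → F1)) :=
  shL (pp t 4) ++ [m1 (.const 1) .sq 0, m1 (.const 1) .sq 1, m0 (.const 1),
    m0 (.mul (.var 0) (.var 0)), m2 (.const 2) .id .id 0 1, m1 (.const 2) .id 0, m1 (.const 2) .id 1,
    m1 (.const 1) .sq 2, m1 (.const 1) .sq 3, m0 (.const 1), m1 (.const 1) .sq 4,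
    m2 (.const 2) .id .id 2 3, m1 (.const 2) .id 2, m1 (.const 2) .id 3]

/-- the whole system, negative part -/
def pmW (t : T) : List (T × (ℕ → F1)) :=
  shL (pm t 4) ++ [m1 (.mul (.const 2) (.var 0)) .id 0, m1 (.mul (.const 2) (.var 0)) .id 1,
    m0 (.mul (.const 2) (.var 0)), m2 (.const 2) .id .id 4 2, m2 (.const 2) .id .id 4 3,
    m1 (.const 2) .id 4]

/-- the sum over `j < b ^ m` of `F(digits of j in base b) w ^ j` -/
def boxT (m : ℕ) (b w : T) : List (T × (ℕ → F1)) → T
  | [] => .const 0
  | p :: l => .add (.mul p.1 (prodR m fun k => geoF (p.2 k) (powT w (npowT b k)) b)) (boxT m b w l)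

/-- the value at `v = (b, ..., b)` -/
def cvalT (m : ℕ) (b : T) : List (T × (ℕ → F1)) → T
  | [] => .const 0
  | p :: l => .add (.mul p.1 (prodR m fun k => valF (p.2 k) b)) (cvalT m b l)

/-- monotone majorant of a term -/
def mjT : T → T
  | .var i => .var i
  | .const c => .const c
  | .add a b => .add (mjT a) (mjT b)
  | .sub a b => .add (mjT a) (mjT b)
  | .mul a b => .add (.add (.mul (mjT a) (mjT b)) (mjT a)) (mjT b)
  | .divS a b => .add (mjT a) (mjT b)
  | .pow2 a => .pow2 (mjT a)

/-- size of the box -/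
def bT (t : T) : T := .add (.add (mjT t) (.var 0)) (.const 1)

/-- bound of the exponents -/
def uT (t : T) : T := .add (cvalT (4 + t.size) (bT t) (ppW t)) (.const 1)

/-- BOUNDED SUM: the sum over `x < var 0` of `t (x, var 1, var 2, ...)` -/
def bsumT (t : T) : T :=
  .sub (npowT (bT t) (4 + t.size)) (divT (hwT (.mul (.sub (.pow2 (uT t)) (.const 1))
    (.sub (boxT (4 + t.size) (bT t) (.pow2 (.mul (.const 2) (uT t))) (ppW t))
      (boxT (4 + t.size) (bT t) (.pow2 (.mul (.const 2) (uT t))) (pmW t))))) (uT t))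

/-- substitution of `n` for `var 0`, inverse shift of the other variables -/
def s0 (n : T) : ℕ → T
  | 0 => n
  | k + 1 => .var k

/-- the sum of `f`, `x < n` -/
def sumT (n f : T) : T := sb (s0 n) (bsumT f)

/-- `p` for all `x < n` -/
def allT (n p : T) : T := eqT (sumT n (notT p)) (.const 0)

/-- shift of the variables except `var 0` -/
def s1 : ℕ → T
  | 0 => .var 0
  | k + 1 => .var (k + 2)

/-- number of `x < n` such that `p` is false up to `x` -/
def cntT (n p : T) : T := sumT n (allT (.add (.var 0) (.const 1)) (notT (sb s1 p)))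

/-- the least `x < n` with `p` (0 if there is none) -/
def findT (n p : T) : T := iteT (ltT (cntT n p) n) (cntT n p) (.const 0)

/-- the digit of `c` at `2 ^ (w q)` in base `2 ^ w` -/
def vecT (w c q : T) : T := modT (divT c (.pow2 (.mul w q))) (.pow2 w)

/-- condition: the number `var 0` codes a sequence of `d`-vectors with the recursion `st` -/
def recPT (d : ℕ) (w : T) (st : T → (Fin d → T) → Fin d → T) (f : T) : T :=
  .mul (prodF d fun i => eqT (vecT (sh w) (.var 0) (.const i)) (.const 0))
    (allT (sh f) (prodF d fun i =>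
      eqT (vecT (sh (sh w)) (.var 1) (.add (.mul (.const d) (.add (.var 0) (.const 1))) (.const i)))
        (st (.var 0) (fun i' => vecT (sh (sh w)) (.var 1) (.add (.mul (.const d) (.var 0))
          (.const i'))) i)))

/-- BOUNDED RECURSION: the vector number `f` of the recursion `x 0 = 0`, `x (k + 1) = st k (x k)` -/
def recT (d : ℕ) (w : T) (st : T → (Fin d → T) → Fin d → T) (f : T) (i : Fin d) : T :=
  vecT w (findT (.pow2 (.mul w (.mul (.const d) (.add f (.const 1))))) (recPT d w st f))
    (.add (.mul (.const d) f) (.const i))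

/-- levels -/
def sT (d : ℕ) (k : T) : T :=
  iteT (eqT k (.const 0)) (.const 0)
    (.pow2 (.add (.const (10 * (d + 1))) (.mul (.const (d + 1)) (.sub k (.const 1)))))

/-- number of layers -/
def eT (d : ℕ) (k : T) : T := .add (.const (10 * (d + 1) ^ 2)) (.mul (.const ((d + 1) * (d + 2))) k)

/-- bound for the average of the potential -/
def aT (d : ℕ) (k : T) : T :=
  .mul (.mul (.const (9 * 4 ^ (d + 1))) (.add (eT d k) (.const 1)))
    (npowT (.add (.mul (.const 2) (sT d k)) (.const 3)) d)

/-- number of subintervals -/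
def nnT (d : ℕ) (k : T) : T := .pow2 (.sub (sT d k) (sT d (.sub k (.const 1))))

/-- the subcube number `m` of the cube `c` -/
def childT {d : ℕ} (n : T) (c : Fin d → T) (m : T) (i : Fin d) : T :=
  .add (.mul (c i) n) (modT (divT m (npowT n i)) n)

/-- `|h_i|`, `h_i = j i - x` -/
def ndT (x j : T) : T := .add (.sub j x) (.sub x j)

/-- `r(h)` -/
def rT (d : ℕ) (x : T) (j : Fin d → T) : T := prodF d fun i => maxT (.const 1) (ndT x (j i))

/-- `h . c` modulo `x = 2 ^ (s k)` -/
def zT (d : ℕ) (x : T) (c j : Fin d → T) : T :=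
  modT (.add (sumF d fun i => .mul (j i) (c i)) (.mul (.mul (.sub x (.const 1)) x) (sumF d c))) x

/-- the potential of one frequency -/
def fT (d : ℕ) (k : T) (c j : Fin d → T) : T :=
  iteT (.mul
    (leT (.mul (.mul (rT d (.pow2 (sT d k)) j) (maxF d fun i => ndT (.pow2 (sT d k)) (j i)))
      (.pow2 (.add (eT d k) (.const d)))) (.pow2 (sT d k)))
    (ltT (.pow2 (sT d (.sub k (.const 1))))
      (.mul (.mul (rT d (.pow2 (sT d k)) j) (maxF d fun i => ndT (.pow2 (sT d k)) (j i)))
        (.pow2 (.add (eT d (.sub k (.const 1))) (.const d))))))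
    (sumT (.add (eT d k) (.const 1))
      (iteT (leT (.mul (.mul (.pow2 (.var 0)) (sh (rT d (.pow2 (sT d k)) j)))
        (sh (minT (zT d (.pow2 (sT d k)) c j) (.sub (.pow2 (sT d k)) (zT d (.pow2 (sT d k)) c j)))))
        (.mul (.const (4 ^ (d + 1))) (sh (.pow2 (sT d k))))) (.pow2 (.var 0)) (.const 0)))
    (.const 0)

/-- the potential of the corner `c` of level `k` -/
def ffT (d : ℕ) (k : T) (c : Fin d → T) : T :=
  sumT (npowT (.add (.mul (.const 2) (.pow2 (sT d k))) (.const 1)) d)
    (fT d (sh k) (fun i => sh (c i))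
      (childT (sh (.add (.mul (.const 2) (.pow2 (sT d k))) (.const 1))) (fun _ => .const 0) (.var 0)))

/-- the sum of the potentials of the subcubes -/
def ggT (d : ℕ) (k : T) (c : Fin d → T) : T :=
  sumT (npowT (nnT d (.add k (.const 1))) d)
    (ffT d (sh (.add k (.const 1)))
      (childT (sh (nnT d (.add k (.const 1)))) (fun i => sh (c i)) (.var 0)))

/-- the cube `c` of level `k` is good -/
def goodT (d : ℕ) (k : T) (c : Fin d → T) : T :=
  leT (.add (.mul (ffT d k c) (.mul (aT d (.add k (.const 1))) (npowT (nnT d (.add k (.const 1))) d)))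
      (.mul (.mul (.const 2) (aT d k)) (ggT d k c)))
    (.mul (.mul (.mul (.const 4) (aT d k)) (aT d (.add k (.const 1))))
      (npowT (nnT d (.add k (.const 1))) d))

/-- the first good subcube of the cube `c` of level `k` -/
def stepT (d : ℕ) (k : T) (c : Fin d → T) : Fin d → T :=
  childT (nnT d (.add k (.const 1))) c
    (findT (npowT (nnT d (.add k (.const 1))) d)
      (goodT d (sh (.add k (.const 1)))
        (childT (sh (nnT d (.add k (.const 1)))) (fun i => sh (c i)) (.var 0))))

/-- the corner of level `f` -/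
def cornerT (d : ℕ) (f : T) (i : Fin d) : T := recT d (sT d f) (stepT d) f i

/-- THE TERM of the binary digit number `n = var 0` of the coordinate `i` -/
def digitT (d : ℕ) (i : Fin d) : T :=
  modT (divT (cornerT d (.add (.var 0) (.const 1)) i)
    (.pow2 (.sub (sT d (.add (.var 0) (.const 1))) (.add (.var 0) (.const 1))))) (.const 2)

/-- the vector: binary digits given by the terms `digitT d i` -/
noncomputable def alphaT (d : ℕ) (i : Fin d) : ℝ :=
  ∑' n : ℕ, ((digitT d i).ev (fun _ => n) : ℝ) / 2 ^ (n + 1)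

end Pool.Agent.CFT
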