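import Pool.Agent.CFT.Data
import Pool.Agent.CFK.Basic

/-! Module Ev1: values of the elementary terms. Templates: `Pool.Agent.CFK.Basic` (`rep_div`, `rep_mod`,
`rep_max`, `repP_le`, `rep_ite`, `rep_fin_sup`, ...), `basic_subst_ev`. -/

namespace Pool.Agent.CFT

open Finset Pool.Agent.CFK

theorem ev_sb (u : ℕ → T) (ρ : ℕ → ℕ) (t : T) : (sb u t).ev ρ = t.ev (fun i => (u i).ev ρ) := by
  induction t with
  | var i => rfl
  | const c => rfl
  | add a b iha ihb => simp only [sb, T.ev, iha, ihb]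
  | sub a b iha ihb => simp only [sb, T.ev, iha, ihb]
  | mul a b iha ihb => simp only [sb, T.ev, iha, ihb]
  | divS a b iha ihb => simp only [sb, T.ev, iha, ihb]
  | pow2 a iha => simp only [sb, T.ev, iha]

theorem ev_sh (t : T) (ρ : ℕ → ℕ) : (sh t).ev ρ = t.ev (tl ρ) := by
  unfold sh
  rw [ev_sb]
  rfl

theorem ev_sh_cons (t : T) (x : ℕ) (ρ : ℕ → ℕ) : (sh t).ev (cons x ρ) = t.ev ρ := by
  rw [ev_sh]
  rfl

theorem ev_divT (a b : T) (ρ : ℕ → ℕ) : (divT a b).ev ρ = a.ev ρ / b.ev ρ := by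
  show (1 - (1 - b.ev ρ)) * (a.ev ρ / ((b.ev ρ - 1) + 1)) = a.ev ρ / b.ev ρ
  rcases Nat.eq_zero_or_pos (b.ev ρ) with h | h
  · rw [h]
    simp
  · have e1 : 1 - (1 - b.ev ρ) = 1 := by omega
    have e2 : b.ev ρ - 1 + 1 = b.ev ρ := by omega
    rw [e1, e2, one_mul]

theorem ev_modT (a b : T) (ρ : ℕ → ℕ) : (modT a b).ev ρ = a.ev ρ % b.ev ρ := by
  show a.ev ρ - b.ev ρ * (divT a b).ev ρ = a.ev ρ % b.ev ρ
  rw [ev_divT]
  have := Nat.div_add_mod (a.ev ρ) (b.ev ρ)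
  omega

theorem ev_maxT (a b : T) (ρ : ℕ → ℕ) : (maxT a b).ev ρ = max (a.ev ρ) (b.ev ρ) := by
  show a.ev ρ + (b.ev ρ - a.ev ρ) = max (a.ev ρ) (b.ev ρ)
  omega

theorem ev_minT (a b : T) (ρ : ℕ → ℕ) : (minT a b).ev ρ = min (a.ev ρ) (b.ev ρ) := by
  show a.ev ρ - (a.ev ρ - b.ev ρ) = min (a.ev ρ) (b.ev ρ)
  omega

theorem ev_leT (a b : T) (ρ : ℕ → ℕ) : (leT a b).ev ρ = if a.ev ρ ≤ b.ev ρ then 1 else 0 := by
  show 1 - (a.ev ρ - b.ev ρ) = if a.ev ρ ≤ b.ev ρ then 1 else 0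
  split_ifs with h <;> omega

theorem ev_ltT (a b : T) (ρ : ℕ → ℕ) : (ltT a b).ev ρ = if a.ev ρ < b.ev ρ then 1 else 0 := by
  show 1 - (a.ev ρ + 1 - b.ev ρ) = if a.ev ρ < b.ev ρ then 1 else 0
  split_ifs with h <;> omega

theorem ev_eqT (a b : T) (ρ : ℕ → ℕ) : (eqT a b).ev ρ = if a.ev ρ = b.ev ρ then 1 else 0 := by
  show (leT a b).ev ρ * (leT b a).ev ρ = if a.ev ρ = b.ev ρ then 1 else 0
  rw [ev_leT, ev_leT]
  rcases lt_trichotomy (a.ev ρ) (b.ev ρ) with h | h | h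
  · rw [if_pos h.le, if_neg (not_le.2 h), if_neg h.ne]
  · rw [if_pos h.le, if_pos h.ge, if_pos h]
  · rw [if_neg (not_le.2 h), if_neg h.ne']
    simp

theorem ev_iteT (p a b : T) (ρ : ℕ → ℕ) (P : Prop) [Decidable P]
    (h : p.ev ρ = if P then 1 else 0) : (iteT p a b).ev ρ = if P then a.ev ρ else b.ev ρ := by
  show p.ev ρ * a.ev ρ + (1 - p.ev ρ) * b.ev ρ = if P then a.ev ρ else b.ev ρ
  rw [h]
  by_cases hP : P
  · simp [hP]
  · simp [hP]

theorem ev_npowT (a : T) (k : ℕ) (ρ : ℕ → ℕ) : (npowT a k).ev ρ = a.ev ρ ^ k := by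
  induction k with
  | zero => exact (pow_zero _).symm
  | succ k ih =>
    show (npowT a k).ev ρ * a.ev ρ = a.ev ρ ^ (k + 1)
    rw [ih, pow_succ]

theorem ev_sumF (d : ℕ) (f : Fin d → T) (ρ : ℕ → ℕ) : (sumF d f).ev ρ = ∑ i, (f i).ev ρ := by
  induction d with
  | zero => simp [sumF, T.ev]
  | succ d ih =>
    rw [Fin.sum_univ_succ (fun i => (f i).ev ρ)]
    show (f 0).ev ρ + (sumF d fun i => f i.succ).ev ρ = _
    rw [ih]

theorem ev_prodF (d : ℕ) (f : Fin d → T) (ρ : ℕ → ℕ) : (prodF d f).ev ρ = ∏ i, (f i).ev ρ := by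
  induction d with
  | zero => simp [prodF, T.ev]
  | succ d ih =>
    rw [Fin.prod_univ_succ (fun i => (f i).ev ρ)]
    show (f 0).ev ρ * (prodF d fun i => f i.succ).ev ρ = _
    rw [ih]

theorem ev1_sup_succ (d : ℕ) (g : Fin (d + 1) → ℕ) :
    (univ.sup g) = max (g 0) (univ.sup fun i : Fin d => g i.succ) := by
  apply le_antisymm
  · refine Finset.sup_le fun i _ => ?_
    refine Fin.cases ?_ (fun j => ?_) i
    · exact le_max_left _ _
    · exact le_trans (Finset.le_sup (f := fun i : Fin d => g i.succ) (mem_univ j))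
        (le_max_right _ _)
  · refine max_le (Finset.le_sup (mem_univ 0)) ?_
    exact Finset.sup_le fun i _ => Finset.le_sup (mem_univ i.succ)

theorem ev_maxF (d : ℕ) (f : Fin d → T) (ρ : ℕ → ℕ) :
    (maxF d f).ev ρ = univ.sup fun i => (f i).ev ρ := by
  induction d with
  | zero => simp [maxF, T.ev]
  | succ d ih =>
    rw [ev1_sup_succ d (fun i => (f i).ev ρ)]
    show (maxT (f 0) (maxF d fun i => f i.succ)).ev ρ = _
    rw [ev_maxT, ih]

theorem ev_prodR (m : ℕ) (f : ℕ → T) (ρ : ℕ → ℕ) :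
    (prodR m f).ev ρ = ∏ k ∈ range m, (f k).ev ρ := by
  induction m with
  | zero => rfl
  | succ m ih =>
    rw [Finset.prod_range_succ]
    show (prodR m f).ev ρ * (f m).ev ρ = _
    rw [ih]

theorem prodF_ne (d : ℕ) (f : Fin d → T) (ρ : ℕ → ℕ) :
    (prodF d f).ev ρ ≠ 0 ↔ ∀ i, (f i).ev ρ ≠ 0 := by
  rw [ev_prodF, Finset.prod_ne_zero_iff]
  exact ⟨fun h i => h i (mem_univ i), fun h i _ => h i⟩

end Pool.Agent.CFT
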