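import Pool.Agent.CFT.Ev1
import Pool.Agent.CFK.RHam

/-! Module Ev2: powers, binomial coefficients, geometric sum, gcd, Hamming weight. Templates:
`pow_formula`, `choose_formula`, `geo_sum_one` and `geo_rep_one` (module Geo), `gcd_formula` and `rep_gcd`,
`gcd_central`, `log_formula` and `rep_hw`. -/

namespace Pool.Agent.CFT

open Finset Pool.Agent.CFK

theorem ev_powT (a b : T) (ρ : ℕ → ℕ) : (powT a b).ev ρ = a.ev ρ ^ b.ev ρ := by
  unfold powT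
  rw [ev_modT]
  exact pow_formula (a.ev ρ) (b.ev ρ)

theorem ev_chooseT (n k : T) (ρ : ℕ → ℕ) : (chooseT n k).ev ρ = (n.ev ρ).choose (k.ev ρ) := by
  unfold chooseT
  rw [ev_modT, ev_divT, ev_powT]
  exact choose_formula (n.ev ρ) (k.ev ρ)

theorem ev2_geo (q b : T) (ρ : ℕ → ℕ) :
    (geoT q b).ev ρ = (q.ev ρ ^ b.ev ρ - 1) / (q.ev ρ - 1) := by
  unfold geoT
  rw [ev_divT]
  simp only [T.ev, ev_powT]

theorem ev_gcdT (a b : T) (ρ : ℕ → ℕ) : (gcdT a b).ev ρ = Nat.gcd (a.ev ρ) (b.ev ρ) := by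
  unfold gcdT
  rw [ev_iteT _ _ _ ρ (a.ev ρ = 0) (ev_eqT a (.const 0) ρ),
    ev_iteT _ _ _ ρ (b.ev ρ = 0) (ev_eqT b (.const 0) ρ)]
  by_cases ha : a.ev ρ = 0
  · rw [if_pos ha, ha, Nat.gcd_zero_left]
  · rw [if_neg ha]
    by_cases hb : b.ev ρ = 0
    · rw [if_pos hb, hb, Nat.gcd_zero_right]
    · rw [if_neg hb]
      have h := gcd_formula (a.ev ρ) (b.ev ρ) _ (Nat.one_le_iff_ne_zero.mpr ha)
        (Nat.one_le_iff_ne_zero.mpr hb) rfl
      simp only [T.ev, ev_modT, ev_divT, ev2_geo]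
      rw [h]
      rfl

theorem ev_hwT (n : T) (ρ : ℕ → ℕ) : (hwT n).ev ρ = hw (n.ev ρ) := by
  have hp : (hwpT n).ev ρ = 2 ^ hw (n.ev ρ) := by
    unfold hwpT
    rw [ev_gcdT]
    simp only [T.ev, ev_chooseT]
    exact gcd_central (n.ev ρ)
  unfold hwT
  simp only [T.ev, ev_modT, ev_divT, ev_powT, ev_npowT, hp]
  exact log_formula (hw (n.ev ρ))

end Pool.Agent.CFT
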