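import Pool.Agent.CFT.Ev2
import Pool.Agent.CFK.Geo

/-! Module Ev2b: the sums of `φ(x) q^x` and the values `φ(b)`. Template: `Pool.Agent.CFK.Geo`
(`geo_rep_one`, `geo_rep_id`, `geo_rep_sq`, `rep_geo`), `box_rep_ev`. -/

namespace Pool.Agent.CFT

open Finset Pool.Agent.CFK

theorem ev2b_geoT (q b : T) (ρ : ℕ → ℕ) (h : 2 ≤ q.ev ρ) :
    (geoT q b).ev ρ = ∑ x ∈ range (b.ev ρ), q.ev ρ ^ x := by
  obtain ⟨r, hr⟩ : ∃ r, q.ev ρ = r + 1 := ⟨q.ev ρ - 1, by omega⟩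
  have hr0 : 0 < r := by omega
  have h1 := geo_sum_one r (b.ev ρ)
  rw [geoT, ev_divT]
  change ((powT q b).ev ρ - 1) / (q.ev ρ - 1) = ∑ x ∈ range (b.ev ρ), q.ev ρ ^ x
  rw [ev_powT, hr, Nat.add_sub_cancel]
  refine Nat.div_eq_of_eq_mul_right hr0 ?_
  omega

theorem ev2b_id (q b : T) (ρ : ℕ → ℕ) (h : 2 ≤ q.ev ρ) :
    (geoF .id q b).ev ρ = ∑ x ∈ range (b.ev ρ), x * q.ev ρ ^ x := by
  obtain ⟨r, hr⟩ : ∃ r, q.ev ρ = r + 1 := ⟨q.ev ρ - 1, by omega⟩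
  have hr0 : 0 < r := by omega
  have h1 := geo_sum_id r (b.ev ρ)
  rw [geoF, ev_divT, ev_npowT]
  change (b.ev ρ * (q.ev ρ - 1) * (powT q b).ev ρ + q.ev ρ - q.ev ρ * (powT q b).ev ρ) /
    (q.ev ρ - 1) ^ 2 = ∑ x ∈ range (b.ev ρ), x * q.ev ρ ^ x
  rw [ev_powT, hr, Nat.add_sub_cancel]
  refine Nat.div_eq_of_eq_mul_right (pow_pos hr0 2) ?_
  omega

theorem ev2b_sq (q b : T) (ρ : ℕ → ℕ) (h : 2 ≤ q.ev ρ) :
    (geoF .sq q b).ev ρ = ∑ x ∈ range (b.ev ρ), x ^ 2 * q.ev ρ ^ x := by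
  obtain ⟨r, hr⟩ : ∃ r, q.ev ρ = r + 1 := ⟨q.ev ρ - 1, by omega⟩
  have hr0 : 0 < r := by omega
  have h1 := geo_sum_sq r (b.ev ρ)
  rw [geoF, ev_divT, ev_npowT]
  change (((npowT b 2).ev ρ * (npowT (.sub q (.const 1)) 2).ev ρ +
      q.ev ρ * (q.ev ρ + 1)) * (powT q b).ev ρ -
    (2 * b.ev ρ * q.ev ρ * (q.ev ρ - 1) * (powT q b).ev ρ + q.ev ρ * (q.ev ρ + 1))) /
      (q.ev ρ - 1) ^ 3 = ∑ x ∈ range (b.ev ρ), x ^ 2 * q.ev ρ ^ x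
  rw [ev_npowT, ev_npowT]
  change ((b.ev ρ ^ 2 * (q.ev ρ - 1) ^ 2 + q.ev ρ * (q.ev ρ + 1)) * (powT q b).ev ρ -
    (2 * b.ev ρ * q.ev ρ * (q.ev ρ - 1) * (powT q b).ev ρ + q.ev ρ * (q.ev ρ + 1))) /
      (q.ev ρ - 1) ^ 3 = ∑ x ∈ range (b.ev ρ), x ^ 2 * q.ev ρ ^ x
  rw [ev_powT, hr, Nat.add_sub_cancel]
  refine Nat.div_eq_of_eq_mul_right (pow_pos hr0 3) ?_
  have e : r + 1 + 1 = r + 2 := rfl
  rw [e]
  omega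

theorem ev_geoF (φ : F1) (q b : T) (ρ : ℕ → ℕ) (h : 2 ≤ q.ev ρ) :
    (geoF φ q b).ev ρ = ∑ x ∈ range (b.ev ρ), φ.ev x * q.ev ρ ^ x := by
  cases φ with
  | one =>
    rw [geoF, ev2b_geoT q b ρ h]
    simp [F1.ev]
  | id => exact ev2b_id q b ρ h
  | sq => exact ev2b_sq q b ρ h
  | p2 =>
    have h2 : 2 ≤ (T.mul (.const 2) q).ev ρ := by
      change 2 ≤ 2 * q.ev ρ
      omega
    rw [geoF, ev2b_geoT _ b ρ h2]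
    refine sum_congr rfl fun x _ => ?_
    change (2 * q.ev ρ) ^ x = 2 ^ x * q.ev ρ ^ x
    rw [mul_pow]
  | p4 =>
    have h2 : 2 ≤ (T.mul (.const 4) q).ev ρ := by
      change 2 ≤ 4 * q.ev ρ
      omega
    rw [geoF, ev2b_geoT _ b ρ h2]
    refine sum_congr rfl fun x _ => ?_
    change (4 * q.ev ρ) ^ x = 4 ^ x * q.ev ρ ^ x
    rw [mul_pow]

theorem ev_valF (φ : F1) (b : T) (ρ : ℕ → ℕ) : (valF φ b).ev ρ = φ.ev (b.ev ρ) := by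
  cases φ with
  | one => rfl
  | id => rfl
  | sq =>
    rw [valF, ev_npowT]
    rfl
  | p2 => rfl
  | p4 =>
    rw [valF, ev_powT]
    rfl

end Pool.Agent.CFT
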