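import Pool.Agent.CFT.Ev1
import Pool.Agent.CFK.Epp

/-! Module Ev3: values of the lists of monomials. `∏ k < m` of the indicator-like functions of `m1`,
`m2`, `m3` (template: `box_prod_update`, `ep_v1`, `ep_v2`, `ep_v3`; or induction on `m`, or
`Finset.prod_ite_eq`). `evL_pp`, `evL_pm`: induction on `t`, generalise `s` (template: module Epp). -/

namespace Pool.Agent.CFT

open Finset Pool.Agent.CFK

/-- value of a list of monomials in the unknowns `v k`, `k < m` -/
def evL (m : ℕ) (l : List (T × (ℕ → F1))) (ρ v : ℕ → ℕ) : ℕ :=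
  (l.map fun p => p.1.ev ρ * ∏ k ∈ range m, (p.2 k).ev (v k)).sum

theorem evL_append (m : ℕ) (l l' : List (T × (ℕ → F1))) (ρ v : ℕ → ℕ) :
    evL m (l ++ l') ρ v = evL m l ρ v + evL m l' ρ v := by
  unfold evL
  rw [List.map_append, List.sum_append]

theorem evL_nil (m : ℕ) (ρ v : ℕ → ℕ) : evL m [] ρ v = 0 := rfl

theorem evL_cons (m : ℕ) (p : T × (ℕ → F1)) (l : List (T × (ℕ → F1))) (ρ v : ℕ → ℕ) :
    evL m (p :: l) ρ v = p.1.ev ρ * ∏ k ∈ range m, (p.2 k).ev (v k) + evL m l ρ v := by
  unfold evL
  rw [List.map_cons, List.sum_cons]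

theorem evL_m0 (m : ℕ) (c : T) (l : List (T × (ℕ → F1))) (ρ v : ℕ → ℕ) :
    evL m (m0 c :: l) ρ v = c.ev ρ + evL m l ρ v := by
  have h : ∏ k ∈ range m, ((m0 c).2 k).ev (v k) = 1 := box_prod_one m v
  rw [evL_cons, h, mul_one]
  rfl

theorem ev3_fun1 (φ : F1) (i : ℕ) : (fun k => if k = i then φ else F1.one) =
    Function.update (fun _ => F1.one) i φ := by
  funext k
  rw [Function.update_apply]

theorem ev3_fun2 (φ ψ : F1) (i j : ℕ) :
    (fun k => if k = i then φ else if k = j then ψ else F1.one) =
    Function.update (Function.update (fun _ => F1.one) j ψ) i φ := by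
  funext k
  rw [Function.update_apply, Function.update_apply]

theorem ev3_fun3 (φ ψ χ : F1) (i j l : ℕ) :
    (fun k => if k = i then φ else if k = j then ψ else if k = l then χ else F1.one) =
    Function.update (Function.update (Function.update (fun _ => F1.one) l χ) j ψ) i φ := by
  funext k
  rw [Function.update_apply, Function.update_apply, Function.update_apply]

theorem evL_m1 (m : ℕ) (c : T) (φ : F1) (i : ℕ) (hi : i < m) (l : List (T × (ℕ → F1)))
    (ρ v : ℕ → ℕ) : evL m (m1 c φ i :: l) ρ v = c.ev ρ * φ.ev (v i) + evL m l ρ v := by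
  have h : ∏ k ∈ range m, ((m1 c φ i).2 k).ev (v k) = φ.ev (v i) := by
    show ∏ k ∈ range m, ((fun k => if k = i then φ else F1.one) k).ev (v k) = _
    rw [ev3_fun1, box_prod_update m i hi (fun _ => F1.one) rfl φ v, box_prod_one m v, one_mul]
  rw [evL_cons, h]
  rfl

theorem evL_m2 (m : ℕ) (c : T) (φ ψ : F1) (i j : ℕ) (hi : i < m) (hj : j < m) (hij : i ≠ j)
    (l : List (T × (ℕ → F1))) (ρ v : ℕ → ℕ) :
    evL m (m2 c φ ψ i j :: l) ρ v = c.ev ρ * (φ.ev (v i) * ψ.ev (v j)) + evL m l ρ v := by
  have h : ∏ k ∈ range m, ((m2 c φ ψ i j).2 k).ev (v k) = φ.ev (v i) * ψ.ev (v j) := by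
    show ∏ k ∈ range m, ((fun k => if k = i then φ else if k = j then ψ else F1.one) k).ev (v k) = _
    rw [ev3_fun2, box_prod_update m i hi (Function.update (fun _ => F1.one) j ψ)
        (Function.update_of_ne hij _ _) φ v,
      box_prod_update m j hj (fun _ => F1.one) rfl ψ v, box_prod_one m v, one_mul]
    exact Nat.mul_comm _ _
  rw [evL_cons, h]
  rfl

theorem evL_m3 (m : ℕ) (c : T) (i j k : ℕ) (hi : i < m) (hj : j < m) (hk : k < m) (hij : i ≠ j)
    (hik : i ≠ k) (hjk : j ≠ k) (l : List (T × (ℕ → F1))) (ρ v : ℕ → ℕ) :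
    evL m (m3 c i j k :: l) ρ v = c.ev ρ * (v i * v j * v k) + evL m l ρ v := by
  have h : ∏ n ∈ range m, ((m3 c i j k).2 n).ev (v n) = v i * v j * v k := by
    show ∏ n ∈ range m, ((fun l => if l = i then F1.id else if l = j then F1.id else
      if l = k then F1.id else F1.one) n).ev (v n) = _
    rw [ev3_fun3, box_prod_update m i hi (Function.update (Function.update (fun _ => F1.one) k F1.id)
        j F1.id) (by rw [Function.update_of_ne hij, Function.update_of_ne hik]) F1.id v,
      box_prod_update m j hj (Function.update (fun _ => F1.one) k F1.id)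
        (Function.update_of_ne hjk _ _) F1.id v,
      box_prod_update m k hk (fun _ => F1.one) rfl F1.id v, box_prod_one m v, one_mul]
    show v k * v j * v i = v i * v j * v k
    ring
  rw [evL_cons, h]
  rfl

theorem evL_shL (m : ℕ) (l : List (T × (ℕ → F1))) (ρ v : ℕ → ℕ) :
    evL m (shL l) ρ v = evL m l (tl ρ) v := by
  induction l with
  | nil => rfl
  | cons p l ih =>
    have h : shL (p :: l) = (sh p.1, p.2) :: shL l := rfl
    rw [h, evL_cons, evL_cons, ih, ev_sh]

theorem evL_mono (m : ℕ) (l : List (T × (ℕ → F1))) (ρ v v' : ℕ → ℕ) (h : ∀ k < m, v k ≤ v' k) :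
    evL m l ρ v ≤ evL m l ρ v' := by
  induction l with
  | nil => exact le_refl _
  | cons p l ih =>
    rw [evL_cons, evL_cons]
    refine Nat.add_le_add (Nat.mul_le_mul_left _ (Finset.prod_le_prod' fun k hk => ?_)) ih
    exact box_ev_mono (p.2 k) (h k (Finset.mem_range.1 hk))

theorem evL_pp (t : T) (s m : ℕ) (hs : 1 ≤ s) (hm : s + t.size ≤ m) (ρ v : ℕ → ℕ) :
    evL m (pp t s) ρ v = Pp t s ρ v := by
  induction t generalizing s with
  | var i =>
    simp only [T.size] at hm
    cases i with
    | zero =>
      simp only [pp, Pp]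
      rw [evL_m1 m _ _ _ (by omega), evL_m1 m _ _ _ (by omega), evL_nil]
      simp only [T.ev, F1.ev]
      ring
    | succ i =>
      simp only [pp, Pp]
      rw [evL_m1 m _ _ _ (by omega), evL_m0, evL_nil]
      simp only [T.ev, F1.ev]
      ring
  | const c =>
    simp only [T.size] at hm
    simp only [pp, Pp]
    rw [evL_m1 m _ _ _ (by omega), evL_m0, evL_nil]
    simp only [T.ev, F1.ev]
    ring
  | add a b iha ihb =>
    simp only [T.size] at hm
    have ha := epp_size_pos a
    have hb := epp_size_pos b
    have h1 := iha (s + 1) (by omega) (by omega)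
    have h2 := ihb (s + 1 + a.size) (by omega) (by omega)
    simp only [pp, Pp]
    rw [evL_append, evL_append, h1, h2, evL_m1 m _ _ _ (by omega), evL_m1 m _ _ _ (by omega),
      evL_m1 m _ _ _ (by omega), evL_m2 m _ _ _ _ _ (by omega) (by omega) (by omega), evL_nil]
    simp only [T.ev, F1.ev]
    ring
  | sub a b iha ihb =>
    simp only [T.size] at hm
    have ha := epp_size_pos a
    have hb := epp_size_pos b
    have h1 := iha (s + 2) (by omega) (by omega)
    have h2 := ihb (s + 2 + a.size) (by omega) (by omega)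
    simp only [pp, Pp]
    rw [evL_append, evL_append, h1, h2, evL_m1 m _ _ _ (by omega), evL_m1 m _ _ _ (by omega),
      evL_m1 m _ _ _ (by omega), evL_m1 m _ _ _ (by omega),
      evL_m2 m _ _ _ _ _ (by omega) (by omega) (by omega),
      evL_m2 m _ _ _ _ _ (by omega) (by omega) (by omega),
      evL_m2 m _ _ _ _ _ (by omega) (by omega) (by omega), evL_nil]
    simp only [T.ev, F1.ev]
    ring
  | mul a b iha ihb =>
    simp only [T.size] at hm
    have ha := epp_size_pos a
    have hb := epp_size_pos b
    have h1 := iha (s + 1) (by omega) (by omega)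
    have h2 := ihb (s + 1 + a.size) (by omega) (by omega)
    simp only [pp, Pp]
    rw [evL_append, evL_append, h1, h2, evL_m1 m _ _ _ (by omega),
      evL_m2 m _ _ _ _ _ (by omega) (by omega) (by omega), evL_nil]
    simp only [T.ev, F1.ev]
    ring
  | divS a b iha ihb =>
    simp only [T.size] at hm
    have ha := epp_size_pos a
    have hb := epp_size_pos b
    have h1 := iha (s + 3) (by omega) (by omega)
    have h2 := ihb (s + 3 + a.size) (by omega) (by omega)
    simp only [pp, Pp]
    rw [evL_append, evL_append, h1, h2,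
      evL_m2 m _ _ _ _ _ (by omega) (by omega) (by omega), evL_m1 m _ _ _ (by omega),
      evL_m1 m _ _ _ (by omega), evL_m1 m _ _ _ (by omega),
      evL_m2 m _ _ _ _ _ (by omega) (by omega) (by omega),
      evL_m3 m _ _ _ _ (by omega) (by omega) (by omega) (by omega) (by omega) (by omega),
      evL_m2 m _ _ _ _ _ (by omega) (by omega) (by omega),
      evL_m1 m _ _ _ (by omega), evL_m1 m _ _ _ (by omega), evL_m1 m _ _ _ (by omega),
      evL_m2 m _ _ _ _ _ (by omega) (by omega) (by omega), evL_nil]
    simp only [T.ev, F1.ev]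
    ring
  | pow2 a iha =>
    simp only [T.size] at hm
    have ha := epp_size_pos a
    have h1 := iha (s + 1) (by omega) (by omega)
    simp only [pp, Pp]
    rw [evL_append, h1, evL_m1 m _ _ _ (by omega), evL_m1 m _ _ _ (by omega), evL_nil]
    simp only [T.ev, F1.ev]
    ring

theorem evL_pm (t : T) (s m : ℕ) (hs : 1 ≤ s) (hm : s + t.size ≤ m) (ρ v : ℕ → ℕ) :
    evL m (pm t s) ρ v = Pm t s ρ v := by
  induction t generalizing s with
  | var i =>
    simp only [T.size] at hm
    cases i with
    | zero =>
      simp only [pm, Pm]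
      rw [evL_m2 m _ _ _ _ _ (by omega) (by omega) (by omega), evL_nil]
      simp only [T.ev, F1.ev]
      ring
    | succ i =>
      simp only [pm, Pm]
      rw [evL_m1 m _ _ _ (by omega), evL_nil]
      simp only [T.ev, F1.ev]
      ring
  | const c =>
    simp only [T.size] at hm
    simp only [pm, Pm]
    rw [evL_m1 m _ _ _ (by omega), evL_nil]
    simp only [T.ev, F1.ev]
    ring
  | add a b iha ihb =>
    simp only [T.size] at hm
    have ha := epp_size_pos a
    have hb := epp_size_pos b
    have h1 := iha (s + 1) (by omega) (by omega)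
    have h2 := ihb (s + 1 + a.size) (by omega) (by omega)
    simp only [pm, Pm]
    rw [evL_append, evL_append, h1, h2, evL_m2 m _ _ _ _ _ (by omega) (by omega) (by omega),
      evL_m2 m _ _ _ _ _ (by omega) (by omega) (by omega), evL_nil]
    simp only [T.ev, F1.ev]
    ring
  | sub a b iha ihb =>
    simp only [T.size] at hm
    have ha := epp_size_pos a
    have hb := epp_size_pos b
    have h1 := iha (s + 2) (by omega) (by omega)
    have h2 := ihb (s + 2 + a.size) (by omega) (by omega)
    simp only [pm, Pm]
    rw [evL_append, evL_append, h1, h2, evL_m2 m _ _ _ _ _ (by omega) (by omega) (by omega),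
      evL_m2 m _ _ _ _ _ (by omega) (by omega) (by omega),
      evL_m2 m _ _ _ _ _ (by omega) (by omega) (by omega),
      evL_m2 m _ _ _ _ _ (by omega) (by omega) (by omega), evL_nil]
    simp only [T.ev, F1.ev]
    ring
  | mul a b iha ihb =>
    simp only [T.size] at hm
    have ha := epp_size_pos a
    have hb := epp_size_pos b
    have h1 := iha (s + 1) (by omega) (by omega)
    have h2 := ihb (s + 1 + a.size) (by omega) (by omega)
    simp only [pm, Pm]
    rw [evL_append, evL_append, h1, h2,
      evL_m3 m _ _ _ _ (by omega) (by omega) (by omega) (by omega) (by omega) (by omega), evL_nil]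
    simp only [T.ev]
    ring
  | divS a b iha ihb =>
    simp only [T.size] at hm
    have ha := epp_size_pos a
    have hb := epp_size_pos b
    have h1 := iha (s + 3) (by omega) (by omega)
    have h2 := ihb (s + 3 + a.size) (by omega) (by omega)
    simp only [pm, Pm]
    rw [evL_append, evL_append, h1, h2,
      evL_m3 m _ _ _ _ (by omega) (by omega) (by omega) (by omega) (by omega) (by omega),
      evL_m2 m _ _ _ _ _ (by omega) (by omega) (by omega),
      evL_m2 m _ _ _ _ _ (by omega) (by omega) (by omega),
      evL_m2 m _ _ _ _ _ (by omega) (by omega) (by omega),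
      evL_m2 m _ _ _ _ _ (by omega) (by omega) (by omega), evL_nil]
    simp only [T.ev, F1.ev]
    ring
  | pow2 a iha =>
    simp only [T.size] at hm
    have ha := epp_size_pos a
    have h1 := iha (s + 1) (by omega) (by omega)
    simp only [pm, Pm]
    rw [evL_append, h1, evL_m2 m _ _ _ _ _ (by omega) (by omega) (by omega), evL_nil]
    simp only [T.ev, F1.ev]
    ring

end Pool.Agent.CFT
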