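import Pool.Agent.CFT.Ev3
import Pool.Agent.CFT.Ev2b
import Pool.Agent.CFK.CPar

/-! Module Ev3b: the whole system; sums over a box. Templates: `cnt_ep` (module CPar), `box_mono_sum`,
`box_sum` (module Box). -/

namespace Pool.Agent.CFT

open Finset Pool.Agent.CFK

theorem evL_ppW (t : T) (ρ v : ℕ → ℕ) : evL (4 + t.size) (ppW t) ρ v = PP t ρ v := by
  have hs := cpar_size t
  have l0 : 0 < 4 + t.size := by omega
  have l1 : 1 < 4 + t.size := by omega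
  have l2 : 2 < 4 + t.size := by omega
  have l3 : 3 < 4 + t.size := by omega
  have l4 : 4 < 4 + t.size := by omega
  unfold ppW
  rw [evL_append, evL_shL, evL_pp t 4 (4 + t.size) (by norm_num) le_rfl,
    evL_m1 _ _ _ _ l0, evL_m1 _ _ _ _ l1, evL_m0, evL_m0, evL_m2 _ _ _ _ _ _ l0 l1 (by norm_num),
    evL_m1 _ _ _ _ l0, evL_m1 _ _ _ _ l1, evL_m1 _ _ _ _ l2, evL_m1 _ _ _ _ l3, evL_m0,
    evL_m1 _ _ _ _ l4, evL_m2 _ _ _ _ _ _ l2 l3 (by norm_num), evL_m1 _ _ _ _ l2,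
    evL_m1 _ _ _ _ l3, evL_nil]
  simp only [PP, T.ev, F1.ev]
  ring

theorem evL_pmW (t : T) (ρ v : ℕ → ℕ) : evL (4 + t.size) (pmW t) ρ v = PM t ρ v := by
  have hs := cpar_size t
  have l0 : 0 < 4 + t.size := by omega
  have l1 : 1 < 4 + t.size := by omega
  have l2 : 2 < 4 + t.size := by omega
  have l3 : 3 < 4 + t.size := by omega
  have l4 : 4 < 4 + t.size := by omega
  unfold pmW
  rw [evL_append, evL_shL, evL_pm t 4 (4 + t.size) (by norm_num) le_rfl,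
    evL_m1 _ _ _ _ l0, evL_m1 _ _ _ _ l1, evL_m0, evL_m2 _ _ _ _ _ _ l4 l2 (by norm_num),
    evL_m2 _ _ _ _ _ _ l4 l3 (by norm_num), evL_m1 _ _ _ _ l4, evL_nil]
  simp only [PM, T.ev, F1.ev]
  ring

theorem ev_boxT (m : ℕ) (b w : T) (l : List (T × (ℕ → F1))) (ρ : ℕ → ℕ) (hb : 1 ≤ b.ev ρ)
    (hw : 2 ≤ w.ev ρ) : (boxT m b w l).ev ρ =
      ∑ j ∈ range (b.ev ρ ^ m), evL m l ρ (vec (b.ev ρ) j) * w.ev ρ ^ j := by
  induction l with
  | nil => simp [boxT, T.ev, evL_nil]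
  | cons p l ih =>
    have hq : ∀ k : ℕ, 2 ≤ (powT w (npowT b k)).ev ρ := by
      intro k
      rw [ev_powT, ev_npowT]
      have h3 : 1 ≤ b.ev ρ ^ k := Nat.one_le_pow _ _ hb
      calc 2 ≤ w.ev ρ := hw
        _ = w.ev ρ ^ 1 := (pow_one _).symm
        _ ≤ w.ev ρ ^ (b.ev ρ ^ k) := Nat.pow_le_pow_right (le_trans (by norm_num) hw) h3
    have h1 : (prodR m fun k => geoF (p.2 k) (powT w (npowT b k)) b).ev ρ =
        ∏ k ∈ range m, ∑ x ∈ range (b.ev ρ), (p.2 k).ev x * (w.ev ρ ^ (b.ev ρ ^ k)) ^ x := by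
      rw [ev_prodR]
      refine Finset.prod_congr rfl fun k _ => ?_
      rw [ev_geoF _ _ _ _ (hq k), ev_powT, ev_npowT]
    change p.1.ev ρ * (prodR m fun k => geoF (p.2 k) (powT w (npowT b k)) b).ev ρ +
      (boxT m b w l).ev ρ = _
    rw [ih, h1, ← box_mono_sum (b.ev ρ) m (w.ev ρ) (p.1.ev ρ) hb p.2, ← Finset.sum_add_distrib]
    refine Finset.sum_congr rfl fun j _ => ?_
    rw [evL_cons, add_mul]

theorem ev_cvalT (m : ℕ) (b : T) (l : List (T × (ℕ → F1))) (ρ : ℕ → ℕ) :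
    (cvalT m b l).ev ρ = evL m l ρ (fun _ => b.ev ρ) := by
  induction l with
  | nil => rw [evL_nil]; rfl
  | cons p l ih =>
    change p.1.ev ρ * (prodR m fun k => valF (p.2 k) b).ev ρ + (cvalT m b l).ev ρ = _
    rw [ih, evL_cons, ev_prodR]
    congr 2
    exact Finset.prod_congr rfl fun k _ => ev_valF _ _ _

theorem ev_mjT (t : T) (ρ : ℕ → ℕ) : (mjT t).ev ρ = t.mj ρ := by
  induction t with
  | var i => rfl
  | const c => rfl
  | add a b ha hb => simp only [mjT, T.ev, T.mj, ha, hb]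
  | sub a b ha hb => simp only [mjT, T.ev, T.mj, ha, hb]
  | mul a b ha hb => simp only [mjT, T.ev, T.mj, ha, hb]
  | divS a b ha hb => simp only [mjT, T.ev, T.mj, ha, hb]
  | pow2 a ha => simp only [mjT, T.ev, T.mj, ha]

end Pool.Agent.CFT
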