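import Pool.Agent.CFT.Ev3b
import Pool.Agent.CFK.Sum

/-! Module Ev4: bounded sums, quantifier, search. Templates: `rep_bsum` (module Cnt: same computation with
`B = (bT t).ev ρ`, `u = (uT t).ev ρ`), `rep_sum`, `repP_forall`, `rep_find` (module Sum). `allT`, `findT`
need no hypothesis on `p`: false means value 0. -/

namespace Pool.Agent.CFT

open Finset Pool.Agent.CFK

theorem ev4_bT (t : T) (ρ : ℕ → ℕ) : (bT t).ev ρ = t.mj ρ + ρ 0 + 1 := by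
  show (mjT t).ev ρ + ρ 0 + 1 = _
  rw [ev_mjT]

theorem ev4_uT (t : T) (ρ : ℕ → ℕ) :
    (uT t).ev ρ = PP t ρ (fun _ => t.mj ρ + ρ 0 + 1) + 1 := by
  show (cvalT (4 + t.size) (bT t) (ppW t)).ev ρ + 1 = _
  rw [ev_cvalT, evL_ppW, ev4_bT]

theorem ev_bsumT (t : T) (ρ : ℕ → ℕ) :
    (bsumT t).ev ρ = ∑ x ∈ range (ρ 0), t.ev (cons x (tl ρ)) := by
  obtain ⟨B, hBe⟩ : ∃ B, B = t.mj ρ + ρ 0 + 1 := ⟨_, rfl⟩
  obtain ⟨u, hue⟩ : ∃ u, u = PP t ρ (fun _ => B) + 1 := ⟨_, rfl⟩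
  have hbT : (bT t).ev ρ = B := by rw [ev4_bT, hBe]
  have huT : (uT t).ev ρ = u := by rw [ev4_uT, ← hBe, hue]
  have hwT' : (T.pow2 (.mul (.const 2) (uT t))).ev ρ = 2 ^ (2 * u) := by
    show 2 ^ (2 * (uT t).ev ρ) = _
    rw [huT]
  have hW2 : 2 ≤ (T.pow2 (.mul (.const 2) (uT t))).ev ρ := by
    rw [hwT']
    calc 2 = 2 ^ 1 := by norm_num
      _ ≤ _ := Nat.pow_le_pow_right (by norm_num) (by omega)
  have hB1 : 1 ≤ (bT t).ev ρ := by rw [hbT]; omega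
  have hbP : (boxT (4 + t.size) (bT t) (.pow2 (.mul (.const 2) (uT t))) (ppW t)).ev ρ =
      ∑ j ∈ range (B ^ (4 + t.size)), PP t ρ (vec B j) * (2 ^ (2 * u)) ^ j := by
    rw [ev_boxT _ _ _ _ _ hB1 hW2, hbT, hwT']
    exact Finset.sum_congr rfl fun j _ => by rw [evL_ppW]
  have hbM : (boxT (4 + t.size) (bT t) (.pow2 (.mul (.const 2) (uT t))) (pmW t)).ev ρ =
      ∑ j ∈ range (B ^ (4 + t.size)), PM t ρ (vec B j) * (2 ^ (2 * u)) ^ j := by
    rw [ev_boxT _ _ _ _ _ hB1 hW2, hbT, hwT']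
    exact Finset.sum_congr rfl fun j _ => by rw [evL_pmW]
  have hval : (bsumT t).ev ρ = B ^ (4 + t.size) - hw ((2 ^ u - 1) *
      ((∑ j ∈ range (B ^ (4 + t.size)), PP t ρ (vec B j) * (2 ^ (2 * u)) ^ j) -
        ∑ j ∈ range (B ^ (4 + t.size)), PM t ρ (vec B j) * (2 ^ (2 * u)) ^ j)) / u := by
    show (npowT (bT t) (4 + t.size)).ev ρ - (divT (hwT (.mul (.sub (.pow2 (uT t)) (.const 1))
      (.sub (boxT (4 + t.size) (bT t) (.pow2 (.mul (.const 2) (uT t))) (ppW t))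
        (boxT (4 + t.size) (bT t) (.pow2 (.mul (.const 2) (uT t))) (pmW t))))) (uT t)).ev ρ = _
    rw [ev_npowT, ev_divT, ev_hwT, hbT, huT]
    show B ^ (4 + t.size) - hw ((2 ^ (uT t).ev ρ - 1) *
      ((boxT (4 + t.size) (bT t) (.pow2 (.mul (.const 2) (uT t))) (ppW t)).ev ρ -
        (boxT (4 + t.size) (bT t) (.pow2 (.mul (.const 2) (uT t))) (pmW t)).ev ρ)) / u = _
    rw [hbP, hbM, huT]
  rw [hval]
  have hcons : cons (ρ 0) (tl ρ) = ρ := sum_cons_tl ρ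
  have h1 := cnt_sol t ρ B (by rw [hcons]; omega)
  obtain ⟨eP, -⟩ := cnt_ep t
  have hle : ∀ j, PM t ρ (vec B j) ≤ PP t ρ (vec B j) := fun j => (cnt_parts t ρ (vec B j)).1
  have hP : ∀ j < B ^ (4 + t.size), PP t ρ (vec B j) - PM t ρ (vec B j) < 2 ^ u := by
    intro j _
    have h2 : PP t ρ (vec B j) ≤ PP t ρ (fun _ => B) :=
      ep_mono_le eP ρ (vec B j) (fun _ => B) fun k _ => (vec_lt B j k (by omega)).le
    have h3 : u < 2 ^ u := Nat.lt_two_pow_self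
    omega
  have h4 := cnt_hw (B ^ (4 + t.size)) u (fun j => PP t ρ (vec B j) - PM t ρ (vec B j)) (by omega) hP
  have h5 := cnt_sub_sum (B ^ (4 + t.size)) (fun j => PP t ρ (vec B j))
    (fun j => PM t ρ (vec B j)) (fun j => (2 ^ (2 * u)) ^ j) (2 ^ u - 1) hle
  beta_reduce at h4 h5
  rw [h5] at h4
  rw [h4]
  have h6 : ((range (B ^ (4 + t.size))).filter fun j =>
      PP t ρ (vec B j) - PM t ρ (vec B j) = 0) =
      (range (B ^ (4 + t.size))).filter fun j => PP t ρ (vec B j) = PM t ρ (vec B j) := by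
    refine Finset.filter_congr fun j _ => ?_
    have := hle j
    omega
  rw [h6, h1]

theorem ev4_s0 (n : T) (ρ : ℕ → ℕ) : (fun i => (s0 n i).ev ρ) = cons (n.ev ρ) ρ := by
  funext k
  cases k with
  | zero => rfl
  | succ k => rfl

theorem ev_sumT (n f : T) (ρ : ℕ → ℕ) :
    (sumT n f).ev ρ = ∑ x ∈ range (n.ev ρ), f.ev (cons x ρ) := by
  show (sb (s0 n) (bsumT f)).ev ρ = _
  rw [ev_sb, ev4_s0, ev_bsumT, sum_tl_cons]
  rfl

theorem ev4_notT (p : T) (ρ : ℕ → ℕ) : (notT p).ev ρ = 1 - p.ev ρ := rfl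

/-- the quantifier has the values 0 and 1 -/
theorem ev4_allT (n p : T) (ρ : ℕ → ℕ) [Decidable (∀ x < n.ev ρ, p.ev (cons x ρ) ≠ 0)] :
    (allT n p).ev ρ = if ∀ x < n.ev ρ, p.ev (cons x ρ) ≠ 0 then 1 else 0 := by
  show (eqT (sumT n (notT p)) (.const 0)).ev ρ = _
  rw [ev_eqT, ev_sumT]
  have h : (∑ x ∈ range (n.ev ρ), (notT p).ev (cons x ρ) = (T.const 0).ev ρ) ↔
      ∀ x < n.ev ρ, p.ev (cons x ρ) ≠ 0 := by
    show (∑ x ∈ range (n.ev ρ), (notT p).ev (cons x ρ) = 0) ↔ _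
    rw [Finset.sum_eq_zero_iff]
    constructor
    · intro h x hx
      have h2 := h x (Finset.mem_range.2 hx)
      rw [ev4_notT] at h2
      omega
    · intro h x hx
      have h2 := h x (Finset.mem_range.1 hx)
      rw [ev4_notT]
      omega
  by_cases hc : ∀ x < n.ev ρ, p.ev (cons x ρ) ≠ 0
  · rw [if_pos hc, if_pos (h.2 hc)]
  · rw [if_neg hc, if_neg fun h' => hc (h.1 h')]

theorem allT_ne (n p : T) (ρ : ℕ → ℕ) :
    (allT n p).ev ρ ≠ 0 ↔ ∀ x < n.ev ρ, p.ev (cons x ρ) ≠ 0 := by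
  classical
  rw [ev4_allT]
  by_cases hc : ∀ x < n.ev ρ, p.ev (cons x ρ) ≠ 0
  · rw [if_pos hc]
    exact ⟨fun _ => hc, fun _ => one_ne_zero⟩
  · rw [if_neg hc]
    exact ⟨fun h => absurd rfl h, fun h => absurd h hc⟩

theorem ev4_s1 (x y : ℕ) (ρ : ℕ → ℕ) :
    (fun i => (s1 i).ev (cons y (cons x ρ))) = cons y ρ := by
  funext k
  cases k with
  | zero => rfl
  | succ k => rfl

theorem ev4_cntT (n p : T) (ρ : ℕ → ℕ)
    [DecidablePred fun i => ∀ j < i + 1, ¬ p.ev (cons j ρ) ≠ 0] :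
    (cntT n p).ev ρ = ((range (n.ev ρ)).filter
      (fun i => ∀ j < i + 1, ¬ p.ev (cons j ρ) ≠ 0)).card := by
  classical
  show (sumT n (allT (.add (.var 0) (.const 1)) (notT (sb s1 p)))).ev ρ = _
  rw [ev_sumT, Finset.card_filter]
  refine Finset.sum_congr rfl fun x _ => ?_
  rw [ev4_allT]
  have h : (∀ y < (T.add (.var 0) (.const 1)).ev (cons x ρ),
      (notT (sb s1 p)).ev (cons y (cons x ρ)) ≠ 0) ↔
      ∀ j < x + 1, ¬ p.ev (cons j ρ) ≠ 0 := by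
    show (∀ y < x + 1, (notT (sb s1 p)).ev (cons y (cons x ρ)) ≠ 0) ↔ _
    refine forall_congr' fun y => forall_congr' fun _ => ?_
    rw [ev4_notT, ev_sb, ev4_s1]
    omega
  by_cases hc : ∀ j < x + 1, ¬ p.ev (cons j ρ) ≠ 0
  · rw [if_pos hc, if_pos (h.2 hc)]
  · rw [if_neg hc, if_neg fun h' => hc (h.1 h')]

theorem ev_findT (n p : T) (ρ : ℕ → ℕ) :
    (findT n p).ev ρ = sInf {x | x < n.ev ρ ∧ p.ev (cons x ρ) ≠ 0} := by
  classical
  show (iteT (ltT (cntT n p) n) (cntT n p) (.const 0)).ev ρ = _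
  rw [ev_iteT _ _ _ _ _ (ev_ltT (cntT n p) n ρ), ev4_cntT]
  by_cases hex : ∃ m, m < n.ev ρ ∧ p.ev (cons m ρ) ≠ 0
  · obtain ⟨m, hm⟩ : ∃ m, m = Nat.find hex := ⟨_, rfl⟩
    have hm1 : m < n.ev ρ ∧ p.ev (cons m ρ) ≠ 0 := by rw [hm]; exact Nat.find_spec hex
    have hm2 : ∀ j < m, ¬ p.ev (cons j ρ) ≠ 0 := by
      intro j hj hpj
      rw [hm] at hj
      exact Nat.find_min hex hj ⟨lt_trans (hm ▸ hj) hm1.1, hpj⟩
    have h6 : (range (n.ev ρ)).filter (fun i => ∀ j < i + 1, ¬ p.ev (cons j ρ) ≠ 0) = range m := by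
      ext i
      rw [Finset.mem_filter, Finset.mem_range, Finset.mem_range]
      constructor
      · intro h
        by_contra hc
        exact h.2 m (by omega) hm1.2
      · intro h
        exact ⟨lt_trans h hm1.1, fun j hj => hm2 j (by omega)⟩
    have h7 : sInf {x | x < n.ev ρ ∧ p.ev (cons x ρ) ≠ 0} = m := by
      refine le_antisymm (Nat.sInf_le hm1) ?_
      have h8 : sInf {x | x < n.ev ρ ∧ p.ev (cons x ρ) ≠ 0} ∈
        {x | x < n.ev ρ ∧ p.ev (cons x ρ) ≠ 0} := Nat.sInf_mem ⟨m, hm1⟩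
      by_contra hc
      exact hm2 _ (not_le.1 hc) h8.2
    rw [h7, h6, Finset.card_range, if_pos hm1.1]
  · have hno : ∀ j < n.ev ρ, ¬ p.ev (cons j ρ) ≠ 0 := fun j hj hpj => hex ⟨j, hj, hpj⟩
    have h6 : (range (n.ev ρ)).filter (fun i => ∀ j < i + 1, ¬ p.ev (cons j ρ) ≠ 0) =
        range (n.ev ρ) := by
      refine Finset.filter_true_of_mem ?_
      intro i hi j hj
      exact hno j (by have := Finset.mem_range.1 hi; omega)
    have h7 : {x | x < n.ev ρ ∧ p.ev (cons x ρ) ≠ 0} = (∅ : Set ℕ) := by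
      ext m
      exact ⟨fun h => hex ⟨m, h⟩, fun h => h.elim⟩
    rw [h7, h6, Finset.card_range, if_neg (lt_irrefl _), Nat.sInf_empty]
    rfl

end Pool.Agent.CFT
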