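import Pool.Agent.CFT.Ev4
import Pool.Agent.CFK.Rec

/-! Module Ev5: bounded recursion. Template: `rep_rec` (module Rec), with `rec_exists`, `rec_sound`:
`(recPT d w st f).ev (cons c ρ) ≠ 0 ↔ RecP stp (w.ev ρ) (f.ev ρ) c`. -/

namespace Pool.Agent.CFT

open Finset Pool.Agent.CFK

theorem ev_vecT (w c q : T) (ρ : ℕ → ℕ) :
    (vecT w c q).ev ρ = vec (2 ^ w.ev ρ) (c.ev ρ) (q.ev ρ) := by
  unfold vecT vec
  rw [ev_modT, ev_divT]
  simp only [T.ev]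
  rw [pow_mul]

private theorem ev5_eq_ne (a b : T) (ρ : ℕ → ℕ) : (eqT a b).ev ρ ≠ 0 ↔ a.ev ρ = b.ev ρ := by
  rw [ev_eqT]
  by_cases h : a.ev ρ = b.ev ρ
  · simp [h]
  · simp [h]

private theorem ev5_recP {d : ℕ} (stp : ℕ → (Fin d → ℕ) → Fin d → ℕ)
    (st : T → (Fin d → T) → Fin d → T)
    (hst : ∀ (k : T) (c : Fin d → T) (i : Fin d) (σ : ℕ → ℕ),
      (st k c i).ev σ = stp (k.ev σ) (fun i' => (c i').ev σ) i)
    (w f : T) (ρ : ℕ → ℕ) (x : ℕ) :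
    (recPT d w st f).ev (cons x ρ) ≠ 0 ↔ RecP stp (w.ev ρ) (f.ev ρ) x := by
  unfold recPT RecP
  have hmul : ∀ (a b : T) (σ : ℕ → ℕ), (T.mul a b).ev σ ≠ 0 ↔ a.ev σ ≠ 0 ∧ b.ev σ ≠ 0 := by
    intro a b σ
    simp only [T.ev]
    exact mul_ne_zero_iff
  rw [hmul, prodF_ne, allT_ne, ev_sh_cons]
  apply and_congr
  · apply forall_congr'
    intro i
    rw [ev5_eq_ne, ev_vecT, ev_sh_cons]
    simp only [T.ev, CFK.cons]
  · apply forall_congr'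
    intro j
    apply forall_congr'
    intro _
    rw [prodF_ne]
    apply forall_congr'
    intro i
    rw [ev5_eq_ne, ev_vecT, hst]
    simp only [ev_vecT, ev_sh_cons]
    simp only [T.ev, CFK.cons]

theorem ev_recT {d : ℕ} (X : ℕ → Fin d → ℕ) (stp : ℕ → (Fin d → ℕ) → Fin d → ℕ) (b : ℕ → ℕ)
    (h0 : ∀ i, X 0 i = 0) (hs : ∀ k i, X (k + 1) i = stp k (X k) i)
    (hb : ∀ k i, X k i < 2 ^ b k) (hbm : Monotone b)
    (st : T → (Fin d → T) → Fin d → T)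
    (hst : ∀ (k : T) (c : Fin d → T) (i : Fin d) (σ : ℕ → ℕ),
      (st k c i).ev σ = stp (k.ev σ) (fun i' => (c i').ev σ) i)
    (w f : T) (ρ : ℕ → ℕ) (hw : w.ev ρ = b (f.ev ρ)) (i : Fin d) :
    (recT d w st f i).ev ρ = X (f.ev ρ) i := by
  unfold recT
  rw [ev_vecT, ev_findT]
  have hset : {x | x < (T.pow2 (.mul w (.mul (.const d) (.add f (.const 1))))).ev ρ ∧
      (recPT d w st f).ev (cons x ρ) ≠ 0}
      = {c | c < 2 ^ (b (f.ev ρ) * (d * (f.ev ρ + 1))) ∧ RecP stp (b (f.ev ρ)) (f.ev ρ) c} := by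
    ext x
    simp only [Set.mem_ofPred_eq]
    rw [ev5_recP stp st hst w f ρ x, ← hw]
    simp only [T.ev]
  rw [hset, hw]
  have hne : {c | c < 2 ^ (b (f.ev ρ) * (d * (f.ev ρ + 1))) ∧
      RecP stp (b (f.ev ρ)) (f.ev ρ) c}.Nonempty := by
    obtain ⟨c, hc, hcp⟩ := rec_exists h0 hs hb hbm (f.ev ρ)
    exact ⟨c, hc, hcp⟩
  have hmem := Nat.sInf_mem hne
  have hfin := rec_sound h0 hs hmem.2 (f.ev ρ) le_rfl i
  simp only [T.ev]
  exact hfin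

end Pool.Agent.CFT
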