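import Pool.Agent.CFT.Ev4
import Pool.Agent.CFK.KA

/-! Module Ev6: the functions of the greedy algorithm, part 1. Template: module KA. -/

namespace Pool.Agent.CFT

open Finset Pool.Agent.CFK Pool.Agent.Kro

theorem ev_sT (d : ℕ) (k : T) (ρ : ℕ → ℕ) : (sT d k).ev ρ = s d (k.ev ρ) := by
  unfold sT s
  rw [ev_iteT _ _ _ _ (k.ev ρ = 0) (by rw [ev_eqT]; rfl)]
  rfl

theorem ev_eT (d : ℕ) (k : T) (ρ : ℕ → ℕ) : (eT d k).ev ρ = E d (k.ev ρ) := rfl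

theorem ev_aT (d : ℕ) (k : T) (ρ : ℕ → ℕ) : (aT d k).ev ρ = A d (k.ev ρ) := by
  unfold aT A
  simp only [T.ev, ev_eT, ev_npowT, ev_sT]

theorem ev_nnT (d : ℕ) (k : T) (ρ : ℕ → ℕ) : (nnT d k).ev ρ = nn d (k.ev ρ) := by
  unfold nnT nn
  simp only [T.ev, ev_sT]

theorem ev_childT {d : ℕ} (n : T) (c : Fin d → T) (m : T) (i : Fin d) (ρ : ℕ → ℕ) :
    (childT n c m i).ev ρ = child (n.ev ρ) (fun i' => (c i').ev ρ) (m.ev ρ) i := by
  unfold childT child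
  simp only [T.ev, ev_modT, ev_divT, ev_npowT]

theorem ev6_ndT (x j : T) (ρ : ℕ → ℕ) : (ndT x j).ev ρ = nd (x.ev ρ) (j.ev ρ) := rfl

theorem ev6_rT (d : ℕ) (x : T) (j : Fin d → T) (ρ : ℕ → ℕ) :
    (rT d x j).ev ρ = rc (x.ev ρ) (fun i => (j i).ev ρ) := by
  unfold rT rc
  rw [ev_prodF]
  apply prod_congr rfl
  intro i _
  rw [ev_maxT, ev6_ndT]
  rfl

theorem ev6_mT (d : ℕ) (x : T) (j : Fin d → T) (ρ : ℕ → ℕ) :
    (maxF d fun i => ndT x (j i)).ev ρ = mc (x.ev ρ) (fun i => (j i).ev ρ) := by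
  unfold mc
  rw [ev_maxF]
  rfl

theorem ev6_zT (d : ℕ) (S : ℕ) (x : T) (c j : Fin d → T) (ρ : ℕ → ℕ) (hx : x.ev ρ = 2 ^ S) :
    (zT d x c j).ev ρ = tc S (x.ev ρ) (fun i => (j i).ev ρ) (fun i => (c i).ev ρ) := by
  unfold zT tc
  rw [ev_modT]
  simp only [T.ev, ev_sumF, hx]

theorem ev_fT (d : ℕ) (k : T) (c j : Fin d → T) (ρ : ℕ → ℕ) :
    (fT d k c j).ev ρ = fc2 d (k.ev ρ) (fun i => (c i).ev ρ) (fun i => (j i).ev ρ) := by
  have hx : (T.pow2 (sT d k)).ev ρ = 2 ^ s d (k.ev ρ) := by simp only [T.ev, ev_sT]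
  have hr : (rT d (.pow2 (sT d k)) j).ev ρ = rc (2 ^ s d (k.ev ρ)) (fun i => (j i).ev ρ) := by
    rw [ev6_rT, hx]
  have hm : (maxF d fun i => ndT (.pow2 (sT d k)) (j i)).ev ρ =
      mc (2 ^ s d (k.ev ρ)) (fun i => (j i).ev ρ) := by
    rw [ev6_mT, hx]
  have hz : (zT d (.pow2 (sT d k)) c j).ev ρ =
      tc (s d (k.ev ρ)) (2 ^ s d (k.ev ρ)) (fun i => (j i).ev ρ) (fun i => (c i).ev ρ) := by
    rw [ev6_zT d (s d (k.ev ρ)) _ c j ρ hx, hx]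
  have h1 : (T.pow2 (sT d (.sub k (.const 1)))).ev ρ = 2 ^ s d (k.ev ρ - 1) := by
    simp only [T.ev, ev_sT]
  have hE : (T.pow2 (.add (eT d k) (.const d))).ev ρ = 2 ^ (E d (k.ev ρ) + d) := by
    simp only [T.ev, ev_eT]
  have hE1 : (T.pow2 (.add (eT d (.sub k (.const 1))) (.const d))).ev ρ =
      2 ^ (E d (k.ev ρ - 1) + d) := by
    simp only [T.ev, ev_eT]
  unfold fT fc2
  rw [ev_iteT _ _ _ _
    (rc (2 ^ s d (k.ev ρ)) (fun i => (j i).ev ρ) * mc (2 ^ s d (k.ev ρ)) (fun i => (j i).ev ρ) *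
        2 ^ (E d (k.ev ρ) + d) ≤ 2 ^ (s d (k.ev ρ)) ∧
      2 ^ (s d (k.ev ρ - 1)) < rc (2 ^ s d (k.ev ρ)) (fun i => (j i).ev ρ) *
        mc (2 ^ s d (k.ev ρ)) (fun i => (j i).ev ρ) * 2 ^ (E d (k.ev ρ - 1) + d))]
  · refine if_congr Iff.rfl ?_ rfl
    rw [ev_sumT]
    have hn : (T.add (eT d k) (.const 1)).ev ρ = E d (k.ev ρ) + 1 := by
      simp only [T.ev, ev_eT]
    rw [hn]
    apply sum_congr rfl
    intro e _
    have hmin : (minT (zT d (.pow2 (sT d k)) c j)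
        (.sub (.pow2 (sT d k)) (zT d (.pow2 (sT d k)) c j))).ev ρ =
        min (tc (s d (k.ev ρ)) (2 ^ s d (k.ev ρ)) (fun i => (j i).ev ρ) (fun i => (c i).ev ρ))
          (2 ^ s d (k.ev ρ) -
            tc (s d (k.ev ρ)) (2 ^ s d (k.ev ρ)) (fun i => (j i).ev ρ) (fun i => (c i).ev ρ)) := by
      rw [ev_minT]
      have hsub : (T.sub (.pow2 (sT d k)) (zT d (.pow2 (sT d k)) c j)).ev ρ =
          (T.pow2 (sT d k)).ev ρ - (zT d (.pow2 (sT d k)) c j).ev ρ := rfl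
      rw [hsub, hz, hx]
    have hlhs : (T.mul (.mul (.pow2 (.var 0)) (sh (rT d (.pow2 (sT d k)) j)))
        (sh (minT (zT d (.pow2 (sT d k)) c j)
          (.sub (.pow2 (sT d k)) (zT d (.pow2 (sT d k)) c j))))).ev (cons e ρ) =
        2 ^ e * rc (2 ^ s d (k.ev ρ)) (fun i => (j i).ev ρ) *
          min (tc (s d (k.ev ρ)) (2 ^ s d (k.ev ρ)) (fun i => (j i).ev ρ) (fun i => (c i).ev ρ))
          (2 ^ s d (k.ev ρ) -
            tc (s d (k.ev ρ)) (2 ^ s d (k.ev ρ)) (fun i => (j i).ev ρ) (fun i => (c i).ev ρ)) := by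
      have h0 : (T.mul (.mul (.pow2 (.var 0)) (sh (rT d (.pow2 (sT d k)) j)))
        (sh (minT (zT d (.pow2 (sT d k)) c j)
          (.sub (.pow2 (sT d k)) (zT d (.pow2 (sT d k)) c j))))).ev (cons e ρ) =
        2 ^ e * (sh (rT d (.pow2 (sT d k)) j)).ev (cons e ρ) *
          (sh (minT (zT d (.pow2 (sT d k)) c j)
          (.sub (.pow2 (sT d k)) (zT d (.pow2 (sT d k)) c j)))).ev (cons e ρ) := rfl
      rw [h0, ev_sh_cons, ev_sh_cons, hr, hmin]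
    have hrhs : (T.mul (.const (4 ^ (d + 1))) (sh (.pow2 (sT d k)))).ev (cons e ρ) =
        4 ^ (d + 1) * 2 ^ (s d (k.ev ρ)) := by
      have h0 : (T.mul (.const (4 ^ (d + 1))) (sh (.pow2 (sT d k)))).ev (cons e ρ) =
        4 ^ (d + 1) * (sh (.pow2 (sT d k))).ev (cons e ρ) := rfl
      rw [h0, ev_sh_cons, hx]
    rw [ev_iteT _ _ _ _
      (2 ^ e * rc (2 ^ s d (k.ev ρ)) (fun i => (j i).ev ρ) *
          min (tc (s d (k.ev ρ)) (2 ^ s d (k.ev ρ)) (fun i => (j i).ev ρ) (fun i => (c i).ev ρ))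
          (2 ^ s d (k.ev ρ) -
            tc (s d (k.ev ρ)) (2 ^ s d (k.ev ρ)) (fun i => (j i).ev ρ) (fun i => (c i).ev ρ))
        ≤ 4 ^ (d + 1) * 2 ^ (s d (k.ev ρ)))]
    · rfl
    · rw [ev_leT, hlhs, hrhs]
  · have h0 : ∀ a b : T, (T.mul a b).ev ρ = a.ev ρ * b.ev ρ := fun _ _ => rfl
    simp only [h0, ev_leT, ev_ltT, hr, hm, hx, h1, hE, hE1]
    split_ifs with h2 h3 h4 <;> simp_all

end Pool.Agent.CFT
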