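import Pool.Agent.CFT.Ev6
import Pool.Agent.CFK.KB

/-! Module Ev7: the functions of the greedy algorithm, part 2. Template: module KB (`FF_code`,
`PFun_GG`), `ev_sumT`, `ev_sh_cons`. -/

namespace Pool.Agent.CFT

open Finset Pool.Agent.CFK Pool.Agent.Kro

theorem ev_ffT (d : ℕ) (k : T) (c : Fin d → T) (ρ : ℕ → ℕ) :
    (ffT d k c).ev ρ = FF d (k.ev ρ) (fun i => (c i).ev ρ) := by
  have hn : ∀ σ : ℕ → ℕ, (T.add (.mul (.const 2) (.pow2 (sT d k))) (.const 1)).ev σ =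
      2 * 2 ^ s d (k.ev σ) + 1 := by
    intro σ
    simp only [T.ev, ev_sT]
  rw [FF_code]
  unfold ffT
  rw [ev_sumT, ev_npowT, hn]
  refine Finset.sum_congr rfl ?_
  intro x _
  rw [ev_fT, ev_sh_cons]
  congr 1
  · funext i
    rw [ev_sh_cons]
  · funext i
    rw [ev_childT, ev_sh_cons, hn]
    rfl

theorem ev_ggT (d : ℕ) (k : T) (c : Fin d → T) (ρ : ℕ → ℕ) :
    (ggT d k c).ev ρ = GG d (k.ev ρ) (fun i => (c i).ev ρ) := by
  have hk : ∀ σ : ℕ → ℕ, (T.add k (.const 1)).ev σ = k.ev σ + 1 := fun σ => rfl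
  have hn : ∀ σ : ℕ → ℕ, (nnT d (.add k (.const 1))).ev σ = nn d (k.ev σ + 1) := by
    intro σ
    rw [ev_nnT, hk]
  rw [PFun_GG]
  unfold ggT
  rw [ev_sumT, ev_npowT, hn]
  refine Finset.sum_congr rfl ?_
  intro x _
  rw [ev_ffT, ev_sh_cons, hk]
  congr 1
  funext i
  rw [ev_childT, ev_sh_cons, hn]
  simp only [ev_sh_cons]
  rfl

theorem goodT_ne (d : ℕ) (k : T) (c : Fin d → T) (ρ : ℕ → ℕ) :
    (goodT d k c).ev ρ ≠ 0 ↔ Good d (k.ev ρ) (fun i => (c i).ev ρ) := by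
  have hk : (T.add k (.const 1)).ev ρ = k.ev ρ + 1 := rfl
  unfold goodT Good
  rw [ev_leT]
  simp only [T.ev, ev_ffT, ev_ggT, ev_aT, ev_npowT, ev_nnT]
  split_ifs with h
  · simp only [ne_eq, one_ne_zero, not_false_eq_true, true_iff]
    exact h
  · simp only [ne_eq, not_true_eq_false, false_iff]
    exact h

end Pool.Agent.CFT
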