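import Pool.Agent.CFT.Ev5
import Pool.Agent.CFT.Ev7
import Pool.Agent.CFK.KC

/-! Module Ev8: the corners, the digits, the vector. Template: module KC (`corner_lt`, `kc_s_mono`). -/

namespace Pool.Agent.CFT

open Finset Pool.Agent.CFK Pool.Agent.Kro

theorem ev_stepT (d : ℕ) (k : T) (c : Fin d → T) (i : Fin d) (ρ : ℕ → ℕ) :
    (stepT d k c i).ev ρ = child (nn d (k.ev ρ + 1)) (fun i' => (c i').ev ρ)
      (sInf {m | m < nn d (k.ev ρ + 1) ^ d ∧
        Good d (k.ev ρ + 1) (child (nn d (k.ev ρ + 1)) (fun i' => (c i').ev ρ) m)}) i := by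
  have hk : (T.add k (.const 1)).ev ρ = k.ev ρ + 1 := rfl
  have hset : ∀ x, (goodT d (sh (.add k (.const 1)))
        (childT (sh (nnT d (.add k (.const 1)))) (fun i => sh (c i)) (.var 0))).ev (cons x ρ) ≠ 0 ↔
      Good d (k.ev ρ + 1) (child (nn d (k.ev ρ + 1)) (fun i' => (c i').ev ρ) x) := by
    intro x
    rw [goodT_ne, ev_sh_cons, hk]
    have e : (fun i => (childT (sh (nnT d (.add k (.const 1)))) (fun i => sh (c i)) (.var 0)
        i).ev (cons x ρ)) = child (nn d (k.ev ρ + 1)) (fun i' => (c i').ev ρ) x := by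
      funext i
      rw [ev_childT, ev_sh_cons, ev_nnT, hk]
      simp only [ev_sh_cons]
      rfl
    rw [e]
  unfold stepT
  rw [ev_childT, ev_nnT, ev_findT, ev_npowT, ev_nnT, hk]
  simp only [hset]

theorem ev_cornerT (d : ℕ) (f : T) (i : Fin d) (ρ : ℕ → ℕ) :
    (cornerT d f i).ev ρ = corner d (f.ev ρ) i := by
  unfold cornerT
  exact ev_recT (corner d)
    (fun k c => child (nn d (k + 1)) c
      (sInf {m | m < nn d (k + 1) ^ d ∧ Good d (k + 1) (child (nn d (k + 1)) c m)}))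
    (s d) (fun i => rfl) (fun k i => rfl) (fun k i => corner_lt d k i) (kc_s_mono d)
    (stepT d) (fun k c i σ => ev_stepT d k c i σ) (sT d f) f ρ (ev_sT d f ρ) i

theorem ev_digitT (d : ℕ) (i : Fin d) (ρ : ℕ → ℕ) : (digitT d i).ev ρ = digit d i (ρ 0) := by
  unfold digitT digit
  rw [ev_modT, ev_divT, ev_cornerT]
  show corner d (ρ 0 + 1) i / 2 ^ ((sT d (.add (.var 0) (.const 1))).ev ρ - (ρ 0 + 1)) % 2 = _
  rw [ev_sT]
  rfl

theorem alphaT_eq (d : ℕ) : alphaT d = alpha d := by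
  funext i
  unfold alphaT alpha
  congr 1
  funext n
  rw [ev_digitT]

end Pool.Agent.CFT
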